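import Mathlib
import Pool.Agent.H5.NsisDefs
import Pool.Agent.H5.Nsis3

namespace Pool.Agent.Results.MP_1d20a2_co.Yes
open Pool.Agent.H5.Nsis

theorem result : ∃ δ : ℝ, 0 < δ ∧ ∀ (n : ℕ) (D : Diagram n), D.NonSplit → D.Planar → D.Reduced →
    ∃ S : Finset D.Region, D.dual.IsIndepSet (S : Set D.Region) ∧
      (D.dual.induce (S : Set D.Region)ᶜ).Connected ∧ δ * n ≤ S.card := by
  refine ⟨1 / 260, by norm_num, fun n D hN hP hR => ?_⟩
  obtain ⟨S, h1, h2, h3⟩ := main D hN hP hR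
  refine ⟨S, h1, h2, ?_⟩
  have : (n : ℝ) ≤ 260 * S.card := by exact_mod_cast h3
  linarith

end Pool.Agent.Results.MP_1d20a2_co.Yes
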